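import Pool.Agent.Work.MP_46fa68_19.m9_15_6.T

/-! # MP_46fa68_co, full marked kernel m9_15_6: the kernel checks of restriction and target -/

set_option autoImplicit false

set_option maxRecDepth 200000

namespace Pool.JM.MK.m9_15_6

theorem hcl0 : clB 31 cs0 cs1 = true := by decide +kernel

theorem hcl1 : clB 31 cs1 cs2 = true := by decide +kernel

theorem hcl2 : clB 31 cs2 cs3 = true := by decide +kernel

theorem hcl3 : clB 31 cs3 cs4 = true := by decide +kernel

theorem hcl4 : clB 31 cs4 cs5 = true := by decide +kernel

theorem hcl5 : clB 31 cs5 cs6 = true := by decide +kernel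

theorem hcl6 : clB 31 cs6 cs7 = true := by decide +kernel

theorem hcl7 : clB 31 cs7 cs8 = true := by decide +kernel

theorem hcl8 : clB 31 cs8 cs9 = true := by decide +kernel

theorem hcl9 : clB 31 cs9 cs10 = true := by decide +kernel

theorem hcl10 : clB 31 cs10 cs11 = true := by decide +kernel

theorem hcl11 : clB 31 cs11 cs12 = true := by decide +kernel

theorem hcl12 : clB 31 cs12 cs13 = true := by decide +kernel

theorem hcl13 : clB 31 cs13 cs14 = true := by decide +kernel

theorem hcl14 : clB 31 cs14 cs15 = true := by decide +kernel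

theorem hcs0 : memB (Nat.sub (Nat.pow 2 16) 1) (cs 0) = true := by decide +kernel

theorem hG0 : allL cs1 (chG 31 tG) = true := by decide +kernel

theorem hG1 : allL cs2 (chG 31 tG) = true := by decide +kernel

theorem hG2 : allL cs3 (chG 31 tG) = true := by decide +kernel

theorem hG3 : allL cs4 (chG 31 tG) = true := by decide +kernel

theorem hG4 : allL cs5 (chG 31 tG) = true := by decide +kernel

theorem hG5 : allL cs6 (chG 31 tG) = true := by decide +kernel

theorem hG6 : allL cs7 (chG 31 tG) = true := by decide +kernel

theorem hG7 : allL cs8 (chG 31 tG) = true := by decide +kernel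

theorem hG8 : allL cs9 (chG 31 tG) = true := by decide +kernel

theorem hGz : Nat.beq (Int.natAbs (Int.add (g1 tG (Nat.sub (Nat.pow 2 16) 1) 0)
    (Int.neg (Int.ofNat 1)))) 0 = true := by decide +kernel

theorem hB8 : allL cs8 (chB 720720 31 9 tB9 tD9 tB8) = true := by decide +kernel

theorem hD8 : allL cs9 (chD 720720 31 9 tB9 tD9 tD8) = true := by decide +kernel

theorem hB9 : allL cs9 (chB 720720 31 10 tB10 tD10 tB9) = true := by decide +kernel

theorem hD9 : allL cs10 (chD 720720 31 10 tB10 tD10 tD9) = true := by decide +kernel

theorem hB10 : allL cs10 (chB 720720 31 11 tB11 tD11 tB10) = true := by decide +kernel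

theorem hD10 : allL cs11 (chD 720720 31 11 tB11 tD11 tD10) = true := by decide +kernel

theorem hB11 : allL cs11 (chB 720720 31 12 tB12 tD12 tB11) = true := by decide +kernel

theorem hD11 : allL cs12 (chD 720720 31 12 tB12 tD12 tD11) = true := by decide +kernel

theorem hB12 : allL cs12 (chB 720720 31 13 tB13 tD13 tB12) = true := by decide +kernel

theorem hD12 : allL cs13 (chD 720720 31 13 tB13 tD13 tD12) = true := by decide +kernel

theorem hB13 : allL cs13 (chB 720720 31 14 tB14 tD14 tB13) = true := by decide +kernel

theorem hD13 : allL cs14 (chD 720720 31 14 tB14 tD14 tD13) = true := by decide +kernel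

theorem hTB : allL (cs (7 + 1)) (chTB (2 ^ 32) 720720 31 (7 + 1) 8421375 23 (-7649345674765571380675359996581986) (45521203497302577861361331920288954)
    (tB (7 + 1)) tG tF tH) = true := by decide +kernel

theorem hTD : allL (cs (7 + 2)) (chTD (2 ^ 32) 31 (7 + 2) (tD (7 + 1)) tG tF) = true := by
  decide +kernel

theorem hd : allL (cs (14 + 1)) (chN 31 (tD 14)) = true := by decide +kernel

theorem hN : ∀ k < 14, (cs k).length ≤ 101 := by
  intro k hk
  interval_cases k <;> decide +kernel

end Pool.JM.MK.m9_15_6
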